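import Pool.Agent.H55.PM.Targets

/-!
MP_9198c9_nt, module MI: the set of multiplicities is infinite.
-/

set_option autoImplicit false

open Finset

namespace Pool.Agent.H48.MI

open Pool.Agent.H55.PM

/-- MI. The set of multiplicities is infinite. -/
theorem mi : T_MI := by
  intro s t₀ K₀ h
  refine Set.infinite_of_forall_exists_gt fun N => ?_
  set t := max t₀ (2 * N) with ht
  have ht0 : t₀ ≤ t := le_max_left _ _
  have ht1 : 2 * N ≤ t := le_max_right _ _
  have hmu : mu s (fun t' => if t' = t then 1 else 0) t₀ (t + 1) (s t) =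
      2 ^ (t - Nat.clog 2 (s t)) := by
    unfold mu
    rw [Finset.sum_eq_single t]
    · simp
    · intro b _ hb
      simp [hb]
    · intro hn
      exfalso
      apply hn
      rw [Finset.mem_filter, Finset.mem_Ico]
      exact ⟨⟨ht0, Nat.lt_succ_self t⟩, rfl⟩
  have h1 := h t ht0
  refine ⟨2 ^ (t - Nat.clog 2 (s t)), ⟨by positivity, Or.inr ⟨s t, t + 1,
    fun t' => if t' = t then 1 else 0, fun t' => ?_, hmu.symm⟩⟩, ?_⟩
  · change (if t' = t then 1 else 0) ≤ 3
    split_ifs <;> omega
  · calc N < 2 ^ N := Nat.lt_two_pow_self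
      _ ≤ 2 ^ (t - Nat.clog 2 (s t)) := Nat.pow_le_pow_right (by norm_num) (by omega)

end Pool.Agent.H48.MI
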